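import Pool.Agent.H248R6.Der

/-!
# Partial derivatives along a transcendence basis of the reals
-/

set_option autoImplicit false

open MvPolynomial Set

namespace Pool.Agent.E8helper8.SR

/-- A derivation that vanishes on `S` vanishes on everything algebraic over `S`. -/
theorem der_zero_of_algebraic (D : Derivation ℚ ℝ ℝ) (S : Set ℝ) (hS : ∀ s ∈ S, D s = 0) (y : ℝ)
    (hy : IsAlgebraic (Algebra.adjoin ℚ S) y) : D y = 0 := by
  have hA : ∀ a ∈ Algebra.adjoin ℚ S, D a = 0 := by
    intro a ha
    have h := D.eqOn_adjoin (D2 := 0) (s := S) (fun s hs => by simpa using hS s hs)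
    simpa using h ha
  let D' : Derivation (Algebra.adjoin ℚ S) ℝ ℝ :=
    { toFun := D
      map_add' := D.map_add
      map_smul' := fun a z => by
        rw [Algebra.smul_def, RingHom.id_apply, Algebra.smul_def]
        change D ((a : ℝ) * z) = (a : ℝ) * D z
        rw [D.leibniz, hA _ a.2]
        simp
      map_one_eq_zero' := D.map_one_eq_zero
      leibniz' := D.leibniz }
  have hD' : ∀ z, D' z = D z := fun z => rfl
  classical
  -- a polynomial of least degree
  have hex : ∃ n : ℕ, ∃ p : Polynomial (Algebra.adjoin ℚ S), p ≠ 0 ∧ Polynomial.aeval y p = 0 ∧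
      p.natDegree = n := by
    obtain ⟨p, hp, hpy⟩ := hy
    exact ⟨_, p, hp, hpy, rfl⟩
  obtain ⟨p, hp, hpy, hpn⟩ := Nat.find_spec hex
  have hmin := fun m (hm : m < Nat.find hex) => Nat.find_min hex hm
  have hdeg : p.natDegree ≠ 0 := by
    intro h0
    rw [Polynomial.eq_C_of_natDegree_eq_zero h0] at hpy hp
    rw [Polynomial.aeval_C] at hpy
    have h1 : p.coeff 0 = 0 := by
      apply Subtype.ext
      exact hpy
    rw [h1] at hp
    simp at hp
  have hder : Polynomial.derivative p ≠ 0 := by
    intro h0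
    exact hdeg (Polynomial.derivative_eq_zero.1 h0)
  have hdy : Polynomial.aeval y (Polynomial.derivative p) ≠ 0 := by
    intro h0
    refine hmin (Polynomial.derivative p).natDegree ?_ ⟨_, hder, h0, rfl⟩
    rw [← hpn]
    exact Polynomial.natDegree_derivative_lt hdeg
  have h2 := D'.map_aeval p y
  rw [hpy, D'.map_zero, hD', smul_eq_mul] at h2
  exact (mul_eq_zero.1 h2.symm).resolve_left hdy

/-- Exchange: if `x` is algebraic over `F ∪ {r}` but not over `F` then the derivation dual to `r`
does not vanish at `x`. -/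
theorem der_ne_zero (D : Derivation ℚ ℝ ℝ) (F : Set ℝ) (r x : ℝ) (hr : D r = 1)
    (hF : ∀ s ∈ F, D s = 0) (h1 : IsAlgebraic (Algebra.adjoin ℚ (insert r F)) x)
    (h2 : ¬ IsAlgebraic (Algebra.adjoin ℚ F) x) : D x ≠ 0 := by
  intro hx
  have hcl : ∀ (s : Set ℝ) (z : ℝ), z ∈ (AlgebraicIndependent.matroid ℚ ℝ).closure s ↔
      IsAlgebraic (Algebra.adjoin ℚ s) z := by
    intro s z
    rw [AlgebraicIndependent.matroid_closure_eq, SetLike.mem_coe, Subalgebra.mem_algebraicClosure]
  have h3 : r ∈ (AlgebraicIndependent.matroid ℚ ℝ).closure (insert x F) := by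
    apply Matroid.mem_closure_insert
    · rwa [hcl]
    · rwa [hcl]
  rw [hcl] at h3
  have h4 := der_zero_of_algebraic D (insert x F) (by
    intro s hs
    rcases hs with rfl | hs
    · exact hx
    · exact hF s hs) r h3
  rw [hr] at h4
  exact one_ne_zero h4

/-- A relation in which `x` is a simple root. -/
theorem exists_relation_of_algebraic {n : ℕ} (v : Fin n → ℝ) (x : ℝ)
    (hx : IsAlgebraic (Algebra.adjoin ℚ (range v)) x) :
    ∃ P : MvPolynomial (Option (Fin n)) ℚ,
      aeval (fun o : Option (Fin n) => o.elim x v) P = 0 ∧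
      aeval (fun o : Option (Fin n) => o.elim x v) (pderiv none P) ≠ 0 := by
  classical
  let φ : MvPolynomial (Option (Fin n)) ℚ →ₐ[ℚ] Polynomial ℝ :=
    aeval (fun o : Option (Fin n) => o.elim Polynomial.X (fun i => Polynomial.C (v i)))
  have hφe : ∀ P, Polynomial.eval x (φ P) = aeval (fun o : Option (Fin n) => o.elim x v) P := by
    intro P
    have h : ((Polynomial.aeval x : Polynomial ℝ →ₐ[ℝ] ℝ).restrictScalars ℚ).comp φ =
        aeval (fun o : Option (Fin n) => o.elim x v) := by
      apply MvPolynomial.algHom_ext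
      rintro (_ | i)
      · simp [φ]
      · simp [φ]
    have h2 := DFunLike.congr_fun h P
    simpa [Polynomial.aeval_def] using h2
  have hφd : ∀ P, Polynomial.derivative (φ P) = φ (pderiv none P) := by
    intro P
    induction P using MvPolynomial.induction_on with
    | C c =>
      rw [pderiv_C, map_zero]
      simp only [φ, algHom_C]
      rw [IsScalarTower.algebraMap_apply ℚ ℝ (Polynomial ℝ)]
      simp
    | add p q hp hq => simp only [map_add, hp, hq]
    | mul_X p i hp =>
      rw [map_mul, Polynomial.derivative_mul, hp, pderiv_mul, map_add, map_mul, map_mul]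
      congr 2
      rcases i with _ | i
      · simp [φ]
      · rw [pderiv_X_of_ne (by simp), map_zero]
        simp [φ]
  -- a polynomial of least degree over `ℚ[v]`
  have hlift : ∀ q : Polynomial (Algebra.adjoin ℚ (range v)),
      ∃ P, φ P = q.map (algebraMap (Algebra.adjoin ℚ (range v)) ℝ) := by
    intro q
    induction q using Polynomial.induction_on' with
    | add p q hp hq =>
      obtain ⟨P, hP⟩ := hp
      obtain ⟨Q, hQ⟩ := hq
      exact ⟨P + Q, by rw [map_add, hP, hQ, Polynomial.map_add]⟩
    | monomial k a =>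
      have ha : (a : ℝ) ∈ (aeval v : MvPolynomial (Fin n) ℚ →ₐ[ℚ] ℝ).range := by
        rw [← Algebra.adjoin_range_eq_range_aeval]
        exact a.2
      obtain ⟨A, hA⟩ := ha
      refine ⟨rename some A * X none ^ k, ?_⟩
      have h1 : φ (rename some A) = Polynomial.C (a : ℝ) := by
        rw [← hA]
        have h : φ.comp (rename some) = ((Algebra.ofId ℝ (Polynomial ℝ)).restrictScalars ℚ).comp
            (aeval v : MvPolynomial (Fin n) ℚ →ₐ[ℚ] ℝ) := by
          apply MvPolynomial.algHom_ext
          intro i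
          simp [φ, Algebra.ofId_apply]
        have h2 := DFunLike.congr_fun h A
        simpa [Algebra.ofId_apply] using h2
      rw [map_mul, map_pow, h1, Polynomial.map_monomial, ← Polynomial.C_mul_X_pow_eq_monomial]
      congr 1
      simp [φ]
  have hex : ∃ m : ℕ, ∃ p : Polynomial (Algebra.adjoin ℚ (range v)), p ≠ 0 ∧
      Polynomial.aeval x p = 0 ∧ p.natDegree = m := by
    obtain ⟨p, hp, hpy⟩ := hx
    exact ⟨_, p, hp, hpy, rfl⟩
  obtain ⟨p, hp, hpy, hpn⟩ := Nat.find_spec hex
  have hmin := fun m (hm : m < Nat.find hex) => Nat.find_min hex hm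
  have hdeg : p.natDegree ≠ 0 := by
    intro h0
    rw [Polynomial.eq_C_of_natDegree_eq_zero h0] at hpy hp
    rw [Polynomial.aeval_C] at hpy
    have h1 : p.coeff 0 = 0 := by
      apply Subtype.ext
      exact hpy
    rw [h1] at hp
    simp at hp
  have hder : Polynomial.derivative p ≠ 0 := by
    intro h0
    exact hdeg (Polynomial.derivative_eq_zero.1 h0)
  have hdy : Polynomial.aeval x (Polynomial.derivative p) ≠ 0 := by
    intro h0
    refine hmin (Polynomial.derivative p).natDegree ?_ ⟨_, hder, h0, rfl⟩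
    rw [← hpn]
    exact Polynomial.natDegree_derivative_lt hdeg
  obtain ⟨P, hP⟩ := hlift p
  refine ⟨P, ?_, ?_⟩
  · rw [← hφe, hP, Polynomial.eval_map_algebraMap, hpy]
  · rw [← hφe, ← hφd, hP, Polynomial.derivative_map, Polynomial.eval_map_algebraMap]
    exact hdy

/-- The finitely many members of the transcendence basis on which `x` depends. -/
theorem exists_relation {T : Set ℝ} (hT : IsTranscendenceBasis ℚ (Subtype.val : T → ℝ))
    (D : T → Derivation ℚ ℝ ℝ) (hD : ∀ s t : T, (s = t → D s t = 1) ∧ (s ≠ t → D s t = 0))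
    (x : ℝ) :
    ∃ (n : ℕ) (v : Fin n → T), Function.Injective v ∧ (∀ i, D (v i) x ≠ 0) ∧
      (∀ t, D t x ≠ 0 → ∃ i, v i = t) ∧
      IsAlgebraic (Algebra.adjoin ℚ (range fun i => (v i : ℝ))) x := by
  classical
  have hcl : ∀ (s : Set ℝ) (z : ℝ), z ∈ (AlgebraicIndependent.matroid ℚ ℝ).closure s ↔
      IsAlgebraic (Algebra.adjoin ℚ s) z := by
    intro s z
    rw [AlgebraicIndependent.matroid_closure_eq, SetLike.mem_coe, Subalgebra.mem_algebraicClosure]
  have hx : IsAlgebraic (Algebra.adjoin ℚ T) x := by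
    have h := hT.isAlgebraic
    rw [Subtype.range_coe] at h
    exact h.isAlgebraic x
  have hex : ∃ m : ℕ, ∃ F : Finset T, IsAlgebraic (Algebra.adjoin ℚ ((↑) '' (F : Set T) : Set ℝ)) x ∧
      F.card = m := by
    rw [← hcl] at hx
    obtain ⟨I, hI, hIf, _, hxI⟩ := Matroid.exists_mem_finite_closure_of_mem_closure hx
    rw [hcl] at hxI
    have hIf' : (Subtype.val ⁻¹' I : Set T).Finite := hIf.preimage Subtype.val_injective.injOn
    refine ⟨_, hIf'.toFinset, ?_, rfl⟩
    rw [Set.Finite.coe_toFinset, Subtype.image_preimage_coe, inter_eq_right.2 hI]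
    exact hxI
  obtain ⟨F, hF, hFc⟩ := Nat.find_spec hex
  have hmin := fun m (hm : m < Nat.find hex) => Nat.find_min hex hm
  have hne : ∀ r ∈ F, D r x ≠ 0 := by
    intro r hr
    refine der_ne_zero (D r) ((↑) '' ((F.erase r : Finset T) : Set T)) r x ((hD r r).1 rfl) ?_ ?_ ?_
    · rintro _ ⟨s, hs, rfl⟩
      refine (hD r s).2 ?_
      rintro rfl
      simp at hs
    · rw [← image_insert_eq, ← Finset.coe_insert, Finset.insert_erase hr]
      exact hF
    · intro h
      refine hmin (F.erase r).card ?_ ⟨_, h, rfl⟩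
      rw [← hFc]
      exact Finset.card_erase_lt_of_mem hr
  refine ⟨F.card, fun i => (F.equivFin.symm i : T), ?_, ?_, ?_, ?_⟩
  · exact Subtype.val_injective.comp F.equivFin.symm.injective
  · intro i
    exact hne _ (F.equivFin.symm i).2
  · intro t ht
    have htF : t ∈ F := by
      by_contra htF
      apply ht
      refine der_zero_of_algebraic (D t) _ ?_ x hF
      rintro _ ⟨s, hs, rfl⟩
      refine (hD t s).2 ?_
      rintro rfl
      exact htF hs
    exact ⟨F.equivFin ⟨t, htF⟩, by simp⟩
  · have h1 : (range fun i : Fin F.card => ((F.equivFin.symm i : T) : ℝ)) =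
        (↑) '' (F : Set T) := by
      ext z
      constructor
      · rintro ⟨i, rfl⟩
        exact ⟨_, (F.equivFin.symm i).2, rfl⟩
      · rintro ⟨t, ht, rfl⟩
        exact ⟨F.equivFin ⟨t, ht⟩, by simp⟩
    rw [h1]
    exact hF

end Pool.Agent.E8helper8.SR
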