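import Pool.Agent.E8helper8.SR.Part

/-!
# The classes are σ-compact
-/

set_option autoImplicit false

open MvPolynomial Set Topology

namespace Pool.Agent.E8helper8.SR

/-- the projection of a locally closed set is Borel -/
theorem measurable_proj {n : ℕ} {C U : Set (ℝ × (Fin n → ℝ))} (hC : IsClosed C) (hU : IsOpen U) :
    MeasurableSet (Prod.fst '' (C ∩ U)) := by
  obtain ⟨F, hF, _, hFU, _⟩ := hU.exists_iUnion_isClosed
  have h1 : Prod.fst '' (C ∩ U) =
      ⋃ k : ℕ, ⋃ m : ℕ, Prod.fst '' ((C ∩ F k) ∩ compactCovering (ℝ × (Fin n → ℝ)) m) := by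
    rw [← hFU]
    ext x
    constructor
    · rintro ⟨z, ⟨hzC, hzU⟩, rfl⟩
      obtain ⟨k, hk⟩ := mem_iUnion.1 hzU
      obtain ⟨m, hm⟩ := exists_mem_compactCovering z
      exact mem_iUnion.2 ⟨k, mem_iUnion.2 ⟨m, z, ⟨⟨hzC, hk⟩, hm⟩, rfl⟩⟩
    · intro hx
      obtain ⟨k, hx⟩ := mem_iUnion.1 hx
      obtain ⟨m, z, ⟨⟨hzC, hk⟩, _⟩, rfl⟩ := mem_iUnion.1 hx
      exact ⟨z, ⟨hzC, mem_iUnion.2 ⟨k, hk⟩⟩, rfl⟩
  rw [h1]
  refine MeasurableSet.iUnion fun k => MeasurableSet.iUnion fun m => ?_
  have h2 : IsCompact ((C ∩ F k) ∩ compactCovering (ℝ × (Fin n → ℝ)) m) :=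
    (isCompact_compactCovering _ m).inter_left (hC.inter (hF k))
  exact (h2.image continuous_fst).measurableSet

/-- the point of evaluation -/
def ev {n : ℕ} (z : ℝ × (Fin n → ℝ)) : Option (Fin n) → ℝ := fun o => o.elim z.1 z.2

theorem continuous_aeval_ev {n : ℕ} (P : MvPolynomial (Option (Fin n)) ℚ) :
    Continuous fun z : ℝ × (Fin n → ℝ) => aeval (ev z) P := by
  have h1 : Continuous fun z : ℝ × (Fin n → ℝ) => ev z := by
    refine continuous_pi fun o => ?_
    rcases o with _ | i
    · exact continuous_fst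
    · exact (continuous_apply i).comp continuous_snd
  have h2 : (fun z : ℝ × (Fin n → ℝ) => aeval (ev z) P) =
      fun z => MvPolynomial.eval (ev z) (MvPolynomial.map (algebraMap ℚ ℝ) P) := by
    funext z
    rw [eval_map, aeval_def]
  rw [h2]
  exact (MvPolynomial.continuous_eval _).comp h1

variable {ι : Type} [LinearOrder ι]

/-- the closed part -/
def CC {n : ℕ} (K : ι → Set ℝ) (b : Fin n → ι) (P : MvPolynomial (Option (Fin n)) ℚ) :
    Set (ℝ × (Fin n → ℝ)) := {z | (∀ j, z.2 j ∈ K (b j)) ∧ aeval (ev z) P = 0}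

/-- the open part -/
def UU {n : ℕ} (ξ : ι) (ε : ℝ) (b : Fin n → ι) (i : Fin n)
    (P : MvPolynomial (Option (Fin n)) ℚ) : Set (ℝ × (Fin n → ℝ)) :=
  {z | 0 < z.1 ∧ (∀ j, j ≠ i → b j = ξ → z.2 i < z.2 j) ∧
    ε * (aeval (ev z) (pderiv (some i) P) * aeval (ev z) (pderiv none P)) < 0}

omit [LinearOrder ι] in
theorem isClosed_CC {n : ℕ} {K : ι → Set ℝ} (hK : ∀ i, IsClosed (K i)) (b : Fin n → ι)
    (P : MvPolynomial (Option (Fin n)) ℚ) : IsClosed (CC K b P) := by
  have h1 : CC K b P = (⋂ j, (fun z : ℝ × (Fin n → ℝ) => z.2 j) ⁻¹' K (b j)) ∩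
      {z | aeval (ev z) P = 0} := by
    ext z
    simp [CC]
  rw [h1]
  refine IsClosed.inter (isClosed_iInter fun j => ?_) ?_
  · exact (hK (b j)).preimage ((continuous_apply j).comp continuous_snd)
  · exact isClosed_eq (continuous_aeval_ev P) continuous_const

theorem isOpen_UU {n : ℕ} (ξ : ι) (ε : ℝ) (b : Fin n → ι) (i : Fin n)
    (P : MvPolynomial (Option (Fin n)) ℚ) : IsOpen (UU ξ ε b i P) := by
  have h1 : UU ξ ε b i P = {z : ℝ × (Fin n → ℝ) | 0 < z.1} ∩
      ((⋂ j, {z : ℝ × (Fin n → ℝ) | j ≠ i → b j = ξ → z.2 i < z.2 j}) ∩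
      {z | ε * (aeval (ev z) (pderiv (some i) P) * aeval (ev z) (pderiv none P)) < 0}) := by
    ext z
    simp [UU]
  rw [h1]
  refine IsOpen.inter (isOpen_lt continuous_const continuous_fst) (IsOpen.inter ?_ ?_)
  · refine isOpen_iInter_of_finite fun j => ?_
    by_cases h : j ≠ i ∧ b j = ξ
    · have : {z : ℝ × (Fin n → ℝ) | j ≠ i → b j = ξ → z.2 i < z.2 j} =
          {z : ℝ × (Fin n → ℝ) | z.2 i < z.2 j} := by
        ext z
        simp [h.1, h.2]
      rw [this]
      exact isOpen_lt ((continuous_apply i).comp continuous_snd)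
        ((continuous_apply j).comp continuous_snd)
    · have : {z : ℝ × (Fin n → ℝ) | j ≠ i → b j = ξ → z.2 i < z.2 j} = univ := by
        ext z
        simp only [mem_ofPred_eq, mem_univ, iff_true]
        intro h1 h2
        exact absurd ⟨h1, h2⟩ h
      rw [this]
      exact isOpen_univ
  · exact isOpen_lt (continuous_const.mul ((continuous_aeval_ev _).mul (continuous_aeval_ev _)))
      continuous_const

variable {K : ι → Set ℝ}

/-- The class of the block `ξ` and the sign `ε` as a union of projections. -/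
theorem cls_eq (hdis : Pairwise (Function.onFun Disjoint K))
    (hT : IsTranscendenceBasis ℚ (Subtype.val : (⋃ i, K i : Set ℝ) → ℝ))
    (D : (⋃ i, K i : Set ℝ) → Derivation ℚ ℝ ℝ)
    (hD : ∀ s t, (s = t → D s t = 1) ∧ (s ≠ t → D s t = 0))
    (blk : (⋃ i, K i : Set ℝ) → ι) (hblk : ∀ t, (t : ℝ) ∈ K (blk t)) (ξ : ι) (ε : ℝ) :
    Cls D blk ξ ε = ⋃ a : (n : ℕ) × ((Fin n → Iic ξ) × Fin n × MvPolynomial (Option (Fin n)) ℚ),
      ⋃ (_ : ((a.2.1 a.2.2.1 : Iic ξ) : ι) = ξ),
      Prod.fst '' (CC K (fun j => (a.2.1 j : ι)) a.2.2.2 ∩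
        UU ξ ε (fun j => (a.2.1 j : ι)) a.2.2.1 a.2.2.2) := by
  classical
  have hblk2 : ∀ (t : (⋃ i, K i : Set ℝ)) (i : ι), (t : ℝ) ∈ K i → blk t = i := by
    intro t i hi
    by_contra h
    exact (Set.disjoint_left.1 (hdis h) (hblk t)) hi
  ext x
  simp only [mem_iUnion]
  constructor
  · rintro ⟨hx0, t, hbt, hl, hp⟩
    obtain ⟨n, v, hv, hv1, hv2, hv3⟩ := exists_relation hT D hD x
    obtain ⟨P, hP1, hP2⟩ := exists_relation_of_algebraic (fun i => (v i : ℝ)) x hv3
    obtain ⟨i, hi⟩ := hv2 t hl.1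
    have hb : ∀ j, blk (v j) ≤ ξ := by
      intro j
      rcases hl.2 (v j) (hv1 j) with h | ⟨h, _⟩
      · rw [← hbt]
        exact h.le
      · rw [h, hbt]
    refine ⟨⟨n, fun j => ⟨blk (v j), hb j⟩, i, P⟩, ?_, (x, fun j => (v j : ℝ)), ⟨?_, ?_⟩, rfl⟩
    · show blk (v i) = ξ
      rw [hi, hbt]
    · exact ⟨fun j => hblk _, hP1⟩
    · refine ⟨hx0, ?_, ?_⟩
      · intro j hj hbj
        change blk (v j) = ξ at hbj
        rcases hl.2 (v j) (hv1 j) with h | ⟨_, h⟩
        · rw [hbj, hbt] at h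
          exact absurd h (lt_irrefl _)
        · rw [← hi] at h
          rcases h.lt_or_eq with h | h
          · exact h
          · exact absurd (hv h).symm hj
      · -- the sign
        have hP1' : aeval (ev (x, fun j => (v j : ℝ))) P = 0 := hP1
        have hP2' : aeval (ev (x, fun j => (v j : ℝ))) (pderiv none P) ≠ 0 := hP2
        have h1 := Pool.Agent.H248R5.derivation_aeval (D t) (ev (x, fun j => (v j : ℝ))) P
        rw [hP1', map_zero, Fintype.sum_option] at h1
        have h2 : ∑ j : Fin n, aeval (ev (x, fun j => (v j : ℝ))) (pderiv (some j) P) *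
            D t (ev (x, fun j => (v j : ℝ)) (some j)) =
            aeval (ev (x, fun j => (v j : ℝ))) (pderiv (some i) P) := by
          rw [Finset.sum_eq_single i]
          · have : D t (ev (x, fun j => (v j : ℝ)) (some i)) = 1 := (hD t (v i)).1 hi.symm
            rw [this, mul_one]
          · intro j _ hj
            have : D t (ev (x, fun j => (v j : ℝ)) (some j)) = 0 := by
              refine (hD t (v j)).2 ?_
              intro h
              exact hj (hv (h.symm.trans hi.symm))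
            rw [this, mul_zero]
          · intro h
            exact absurd (Finset.mem_univ i) h
        rw [h2] at h1
        have h5 : D t (ev (x, fun j => (v j : ℝ)) none) = D t x := rfl
        rw [h5] at h1
        show ε * (aeval (ev (x, fun j => (v j : ℝ))) (pderiv (some i) P) *
          aeval (ev (x, fun j => (v j : ℝ))) (pderiv none P)) < 0
        have h3 := sq_pos_of_ne_zero hP2'
        have h4 : ε * (aeval (ev (x, fun j => (v j : ℝ))) (pderiv (some i) P) *
          aeval (ev (x, fun j => (v j : ℝ))) (pderiv none P)) =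
          - ((aeval (ev (x, fun j => (v j : ℝ))) (pderiv none P)) ^ 2 * (ε * D t x)) := by
          linear_combination (-(ε * aeval (ev (x, fun j => (v j : ℝ))) (pderiv none P))) * h1
        rw [h4]
        have := mul_pos h3 hp
        linarith
  · rintro ⟨⟨n, b, i, P⟩, hbi, ⟨y, w⟩, ⟨⟨hK1, hP1⟩, hx0, hlt, hneg⟩, rfl⟩
    simp only at hbi hK1 hP1 hx0 hlt hneg ⊢
    have hw : ∀ j, w j ∈ ⋃ i, K i := fun j => mem_iUnion.2 ⟨_, hK1 j⟩
    have hP2 : aeval (ev (y, w)) (pderiv none P) ≠ 0 := by
      intro h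
      rw [h] at hneg
      simp at hneg
    have hder : ∀ s : (⋃ i, K i : Set ℝ), aeval (ev (y, w)) (pderiv none P) * D s y +
        ∑ j, aeval (ev (y, w)) (pderiv (some j) P) * D s (w j) = 0 := by
      intro s
      have h1 := Pool.Agent.H248R5.derivation_aeval (D s) (ev (y, w)) P
      rw [hP1, map_zero, Fintype.sum_option] at h1
      exact h1.symm
    have hsupp : ∀ s : (⋃ i, K i : Set ℝ), D s y ≠ 0 → ∃ j, (s : ℝ) = w j := by
      intro s hs
      by_contra hcon
      push Not at hcon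
      have h1 := hder s
      rw [Finset.sum_eq_zero, add_zero] at h1
      · exact (mul_ne_zero hP2 hs) h1
      · intro j _
        have := (hD s ⟨w j, hw j⟩).2 (by
          rintro rfl
          exact hcon j rfl)
        rw [this, mul_zero]
    let t : (⋃ i, K i : Set ℝ) := ⟨w i, hw i⟩
    have hne : ∀ j, j ≠ i → w i ≠ w j := by
      intro j hj h
      by_cases hbj : ((b j : Iic ξ) : ι) = ξ
      · exact absurd h (hlt j hj hbj).ne
      · have h1 := hK1 j
        rw [← h] at h1
        have h2 := hK1 i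
        rw [hbi] at h2
        exact (Set.disjoint_left.1 (hdis (Ne.symm hbj)) h2) h1
    have ht := hder t
    rw [Finset.sum_eq_single i] at ht
    rotate_left
    · intro j _ hj
      have := (hD t ⟨w j, hw j⟩).2 (by
        intro h
        exact hne j hj (congrArg Subtype.val h))
      rw [this, mul_zero]
    · intro h
      exact absurd (Finset.mem_univ i) h
    have ht1 : D t (w i) = 1 := (hD t t).1 rfl
    rw [ht1, mul_one] at ht
    have hsign : 0 < ε * D t y := by
      have h3 := sq_pos_of_ne_zero hP2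
      have h4 : ε * (aeval (ev (y, w)) (pderiv (some i) P) * aeval (ev (y, w)) (pderiv none P)) =
          - ((aeval (ev (y, w)) (pderiv none P)) ^ 2 * (ε * D t y)) := by
        linear_combination (ε * aeval (ev (y, w)) (pderiv none P)) * ht
      rw [h4] at hneg
      by_contra hcon
      push Not at hcon
      nlinarith
    refine ⟨hx0, t, hblk2 t ξ (by have := hK1 i; rwa [hbi] at this), ⟨?_, ?_⟩, hsign⟩
    · intro h
      rw [h, mul_zero] at hsign
      exact lt_irrefl _ hsign
    · intro s hs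
      have hbt : blk t = ξ := hblk2 t ξ (by have := hK1 i; rwa [hbi] at this)
      obtain ⟨j, hj⟩ := hsupp s hs
      have hbs : blk s = b j := hblk2 s _ (by rw [hj]; exact hK1 j)
      rcases (show ((b j : Iic ξ) : ι) ≤ ξ from (b j).2).lt_or_eq with h | h
      · left
        rw [hbs, hbt]
        exact h
      · right
        refine ⟨by rw [hbs, hbt, h], ?_⟩
        rw [← Subtype.coe_le_coe, hj]
        by_cases hji : j = i
        · rw [hji]
        · exact (hlt j hji h).le

end Pool.Agent.E8helper8.SR
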