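import Pool.Agent.E8helper8.SR.Main
import Pool.Agent.Results.MP_be984c_lc.AnalyticPartition

/-!
# If the line is not a union of fewer than continuum many meager sets
-/

set_option autoImplicit false

open Set Topology Cardinal

namespace Pool.Agent.E8helper8.SR

/-- A piece that is not meager is the only one. -/
theorem meagre_or_subsingleton {J : Type} {B : J → Set ℝ} (hB : SemiringPartition B) :
    Subsingleton J ∨ ∀ j, IsMeagre (B j) := by
  by_cases h : ∀ j, IsMeagre (B j)
  · exact Or.inr h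
  left
  push Not at h
  obtain ⟨j, hj⟩ := h
  obtain ⟨h1, h2, h3⟩ := hB
  obtain ⟨a, b, hab, hI⟩ := Pool.Agent.Results.MP_be984c_lc.AnalyticPartition.contains_interval
    (h1 j).2.1 (fun x hx y hy => ((h1 j).2.2 x hx y hy).1) hj
  have hpos : ∀ i, ∀ x ∈ B i, 0 < x := by
    intro i x hx
    have : x ∈ ⋃ j, B j := mem_iUnion.2 ⟨i, hx⟩
    rwa [h3] at this
  obtain ⟨M, hM⟩ := Pool.Agent.Results.MP_be984c_lc.AnalyticPartition.contains_ray
    (a := (a + b) / 2) (b := b)
    (fun x hx y hy => ((h1 j).2.2 x hx y hy).1) (by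
      -- points of the interval are positive
      have h4 : (a + (a + b) / 2) / 2 ∈ B j := hI ⟨by linarith, by linarith⟩
      have h5 := hpos j _ h4
      by_contra hcon
      have h6 : ∀ x ∈ Ioo a b, 0 < x := fun x hx => hpos j x (hI hx)
      have h7 := h6 ((a + (a + b) / 2) / 2) ⟨by linarith, by linarith⟩
      linarith) (by linarith) (fun x hx => hI ⟨by linarith [hx.1], hx.2⟩)
  have hall : ∀ i, i = j := by
    intro i
    by_contra hij
    obtain ⟨x, hx⟩ := (h1 i).1
    have hx0 := hpos i x hx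
    obtain ⟨n, hn⟩ := exists_nat_gt (M / x)
    rw [div_lt_iff₀ hx0] at hn
    have h4 := Pool.Agent.Results.MP_be984c_lc.AnalyticPartition.nsmul_mem'
      (fun x hx y hy => ((h1 i).2.2 x hx y hy).1) hx n
    have h5 : ((n : ℝ) + 1) * x ∈ B j := hM _ (by linarith)
    exact Set.disjoint_left.1 (h2 i j hij) h4 h5
  exact ⟨fun i i' => (hall i).trans (hall i').symm⟩

/-- A semiring partition with more than one piece is at least as large as some covering of the line
by meager sets. -/
theorem one_or_cover {J : Type} {B : J → Set ℝ} (hB : SemiringPartition B) :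
    #J = 1 ∨ ∃ F : Set (Set ℝ), #F ≤ #J ∧ (∀ M ∈ F, IsMeagre M) ∧ ⋃₀ F = Set.univ := by
  have hne : Nonempty J := by
    have h1 : (1 : ℝ) ∈ ⋃ j, B j := by
      rw [hB.2.2]
      exact mem_Ioi.2 one_pos
    obtain ⟨j, _⟩ := mem_iUnion.1 h1
    exact ⟨j⟩
  rcases meagre_or_subsingleton hB with h | h
  · left
    exact Cardinal.eq_one_iff_unique.2 ⟨h, hne⟩
  right
  obtain ⟨h1, h2, h3⟩ := hB
  let F : Set (Set ℝ) := range B ∪ (range (fun j => (fun x => -x) ⁻¹' B j) ∪ {{0}})
  have hFm : ∀ M ∈ F, IsMeagre M := by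
    rintro M (⟨j, rfl⟩ | ⟨j, rfl⟩ | rfl)
    · exact h j
    · exact (h j).preimage_of_isOpenMap continuous_neg (Homeomorph.neg ℝ).isOpenMap
    · exact residual_of_dense_open isOpen_compl_singleton (dense_compl_singleton (0 : ℝ))
  have hFu : ⋃₀ F = Set.univ := by
    ext x
    simp only [Set.mem_univ, iff_true]
    rcases lt_trichotomy x 0 with hx | hx | hx
    · have h4 : -x ∈ ⋃ j, B j := by
        rw [h3]
        exact neg_pos.2 hx
      obtain ⟨j, hj⟩ := mem_iUnion.1 h4
      exact ⟨_, Or.inr (Or.inl ⟨j, rfl⟩), hj⟩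
    · exact ⟨_, Or.inr (Or.inr rfl), hx⟩
    · have h4 : x ∈ ⋃ j, B j := by
        rw [h3]
        exact hx
      obtain ⟨j, hj⟩ := mem_iUnion.1 h4
      exact ⟨_, Or.inl ⟨j, rfl⟩, hj⟩
  have hF : #F ≤ #J + (#J + 1) := by
    refine (mk_union_le _ _).trans (add_le_add mk_range_le ?_)
    refine (mk_union_le _ _).trans (add_le_add mk_range_le ?_)
    rw [mk_singleton]
  have hinf : ℵ₀ ≤ #J := by
    by_contra hcon
    push Not at hcon
    have hFc : F.Countable := by
      rw [← Cardinal.le_aleph0_iff_set_countable]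
      refine hF.trans (add_lt_of_lt le_rfl hcon (add_lt_of_lt le_rfl hcon one_lt_aleph0)).le
    have h5 : IsMeagre (⋃₀ F) := by
      rw [sUnion_eq_biUnion]
      exact isMeagre_biUnion hFc hFm
    rw [hFu] at h5
    exact not_isMeagre_of_isOpen isOpen_univ univ_nonempty h5
  refine ⟨F, ?_, hFm, hFu⟩
  rw [add_one_eq hinf, add_eq_self hinf] at hF
  exact hF

end Pool.Agent.E8helper8.SR
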