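import Pool.Agent.E8helper8.SR.Borel

/-!
# From a transcendence basis that is a union of `ℵ₁` closed sets to a partition into Borel semirings
-/

set_option autoImplicit false

open MvPolynomial Set Topology Cardinal

namespace Pool.Agent.E8helper8.SR

/-- `B` is a partition of `(0, ∞)` into nonempty Borel sets closed under addition and
multiplication. -/
def SemiringPartition {J : Type} (B : J → Set ℝ) : Prop :=
  (∀ j, (B j).Nonempty ∧ MeasurableSet (B j) ∧
    ∀ x ∈ B j, ∀ y ∈ B j, x + y ∈ B j ∧ x * y ∈ B j) ∧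
  (∀ i j, i ≠ j → Disjoint (B i) (B j)) ∧ ⋃ j, B j = Ioi 0

theorem countable_mv (n : ℕ) : Countable (MvPolynomial (Option (Fin n)) ℚ) := by
  rw [← Cardinal.mk_le_aleph0_iff]
  refine MvPolynomial.cardinalMk_le_max.trans ?_
  simp

theorem measurable_cls {ι : Type} [LinearOrder ι] (hcnt : ∀ i : ι, Countable (Iic i))
    {K : ι → Set ℝ} (hK : ∀ i, IsClosed (K i)) (hdis : Pairwise (Function.onFun Disjoint K))
    (hT : IsTranscendenceBasis ℚ (Subtype.val : (⋃ i, K i : Set ℝ) → ℝ))
    (D : (⋃ i, K i : Set ℝ) → Derivation ℚ ℝ ℝ)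
    (hD : ∀ s t, (s = t → D s t = 1) ∧ (s ≠ t → D s t = 0))
    (blk : (⋃ i, K i : Set ℝ) → ι) (hblk : ∀ t, (t : ℝ) ∈ K (blk t)) (ξ : ι) (ε : ℝ) :
    MeasurableSet (Cls D blk ξ ε) := by
  rw [cls_eq hdis hT D hD blk hblk ξ ε]
  have := hcnt ξ
  have := countable_mv
  refine MeasurableSet.iUnion fun a => MeasurableSet.iUnion fun _ => ?_
  exact measurable_proj (isClosed_CC hK _ _) (isOpen_UU _ _ _ _ _)

theorem cls0_countable {T : Set ℝ} (hT : IsTranscendenceBasis ℚ (Subtype.val : T → ℝ))
    (D : T → Derivation ℚ ℝ ℝ) (hD : ∀ s t : T, (s = t → D s t = 1) ∧ (s ≠ t → D s t = 0)) :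
    (Cls0 D).Countable := by
  refine (Algebraic.countable ℚ ℝ).mono ?_
  rintro x ⟨_, hx⟩
  obtain ⟨n, v, _, hv1, _, hv3⟩ := exists_relation hT D hD x
  rcases Nat.eq_zero_or_pos n with rfl | hn
  · rw [Set.range_eq_empty, Algebra.adjoin_empty] at hv3
    exact Subalgebra.isAlgebraic_of_isAlgebraic_bot hv3
  · exact absurd (hx _) (hv1 ⟨0, hn⟩)

/-- The partition for a well-ordered index type with countable initial segments. -/
theorem partition_aux {ι : Type} [LinearOrder ι] (hcnt : ∀ i : ι, Countable (Iic i))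
    {K : ι → Set ℝ} (hK : ∀ i, IsClosed (K i)) (hne : ∀ i, (K i).Nonempty)
    (hdis : Pairwise (Function.onFun Disjoint K))
    (hT : IsTranscendenceBasis ℚ (Subtype.val : (⋃ i, K i : Set ℝ) → ℝ)) :
    ∃ B : Option (ι × Bool) → Set ℝ, SemiringPartition B := by
  classical
  choose D hD using Pool.Agent.H248R6.exists_der (L := ℝ)
    (Subtype.val : (⋃ i, K i : Set ℝ) → ℝ) hT.1
  have hbl : ∀ t : (⋃ i, K i : Set ℝ), ∃ i, (t : ℝ) ∈ K i := fun t => mem_iUnion.1 t.2
  choose blk hblk using hbl
  have hblk2 : ∀ (t : (⋃ i, K i : Set ℝ)) (i : ι), (t : ℝ) ∈ K i → blk t = i := by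
    intro t i hi
    by_contra h
    exact (Set.disjoint_left.1 (hdis h) (hblk t)) hi
  let sg : Bool → ℝ := fun b => if b then 1 else -1
  let B : Option (ι × Bool) → Set ℝ := fun o => match o with
    | none => Cls0 D
    | some p => Cls D blk p.1 (sg p.2)
  refine ⟨B, ?_, ?_, ?_⟩
  · rintro (_ | ⟨i, b⟩)
    · refine ⟨⟨1, one_pos, fun t => (D t).map_one_eq_zero⟩, (cls0_countable hT D hD).measurableSet,
        fun x hx y hy => ⟨cls0_add hx hy, cls0_mul hx hy⟩⟩
    · refine ⟨?_, measurable_cls hcnt hK hdis hT D hD blk hblk i (sg b),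
        fun x hx y hy => ⟨cls_add hx hy, cls_mul hx hy⟩⟩
      obtain ⟨t, ht⟩ := hne i
      have htT : t ∈ ⋃ i, K i := mem_iUnion.2 ⟨i, ht⟩
      obtain ⟨q, hq⟩ := exists_rat_gt |t|
      have hq' := abs_lt.1 hq
      refine ⟨q + sg b * t, ?_, ⟨t, htT⟩, hblk2 _ _ ht, ⟨?_, ?_⟩, ?_⟩
      · cases b
        · simp only [sg]
          simp
          linarith
        · simp only [sg]
          simp
          linarith
      all_goals
        have hder : ∀ s : (⋃ i, K i : Set ℝ), D s ((q : ℝ) + sg b * t) = sg b * D s t := by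
          intro s
          have h1 : D s (q : ℝ) = 0 := (D s).map_algebraMap q
          have h2 : D s (sg b) = 0 := by
            cases b
            · simp only [sg]
              simp
            · simp only [sg]
              simp
          rw [map_add, (D s).leibniz, h1, h2]
          simp
      · rw [hder, (hD ⟨t, htT⟩ ⟨t, htT⟩).1 rfl]
        cases b <;> simp [sg]
      · intro s hs
        rw [hder] at hs
        have hst : s = ⟨t, htT⟩ := by
          by_contra h
          rw [(hD s ⟨t, htT⟩).2 h, mul_zero] at hs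
          exact hs rfl
        right
        rw [hst]
        exact ⟨rfl, le_rfl⟩
      · rw [hder, (hD ⟨t, htT⟩ ⟨t, htT⟩).1 rfl]
        cases b <;> simp [sg]
  · have key : ∀ (i j : ι) (b c : Bool) (x : ℝ), x ∈ Cls D blk i (sg b) →
        x ∈ Cls D blk j (sg c) → (i, b) = (j, c) := by
      rintro i j b c x ⟨_, s, hs, hsx, hsp⟩ ⟨_, t, ht, htx, htp⟩
      have hst := lead_unique hsx htx
      subst hst
      have hij : i = j := hs.symm.trans ht
      subst hij
      have hbc : b = c := by
        cases b <;> cases c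
        · rfl
        · simp only [sg] at hsp htp
          simp at hsp htp
          linarith
        · simp only [sg] at hsp htp
          simp at hsp htp
          linarith
        · rfl
      rw [hbc]
    rintro (_ | ⟨i, b⟩) (_ | ⟨j, c⟩) hij
    · exact absurd rfl hij
    · rw [Set.disjoint_left]
      rintro x ⟨_, hx⟩ ⟨_, t, _, ht, _⟩
      exact ht.1 (hx t)
    · rw [Set.disjoint_left]
      rintro x ⟨_, t, _, ht, _⟩ ⟨_, hx⟩
      exact ht.1 (hx t)
    · rw [Set.disjoint_left]
      intro x hx hy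
      exact hij (congrArg some (key i j b c x hx hy))
  · ext x
    rw [mem_iUnion, mem_Ioi]
    constructor
    · rintro ⟨_ | ⟨i, b⟩, hx⟩
      · exact hx.1
      · exact hx.1
    · intro hx
      by_cases h : ∃ t, D t x ≠ 0
      · have hfin : {t | D t x ≠ 0}.Finite := by
          obtain ⟨n, v, _, _, hv2, _⟩ := exists_relation hT D hD x
          refine (Set.finite_range v).subset ?_
          intro t ht
          exact hv2 t ht
        obtain ⟨t, ht⟩ := exists_lead (blk := blk) hfin h
        rcases lt_or_gt_of_ne ht.1 with h0 | h0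
        · refine ⟨some (blk t, false), hx, t, rfl, ht, ?_⟩
          simp only [sg]
          simp
          exact h0
        · refine ⟨some (blk t, true), hx, t, rfl, ht, ?_⟩
          simp only [sg]
          simp
          exact h0
      · push Not at h
        exact ⟨none, hx, h⟩

/-- A transcendence basis that is a disjoint union of `ℵ₁` nonempty closed sets gives a partition
of `(0, ∞)` into `ℵ₁` Borel semirings. -/
theorem partition {ι : Type} (hι : #ι = ℵ₁) {K : ι → Set ℝ} (hK : ∀ i, IsClosed (K i))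
    (hne : ∀ i, (K i).Nonempty) (hdis : Pairwise (Function.onFun Disjoint K))
    (hT : IsTranscendenceBasis ℚ (Subtype.val : (⋃ i, K i : Set ℝ) → ℝ)) :
    ∃ (J : Type) (B : J → Set ℝ), #J = ℵ₁ ∧ SemiringPartition B := by
  classical
  obtain ⟨e⟩ : Nonempty ((ℵ₁ : Cardinal.{0}).ord.ToType ≃ ι) := by
    rw [← Cardinal.eq, hι]
    simp
  have hcnt : ∀ i : (ℵ₁ : Cardinal.{0}).ord.ToType, Countable (Iic i) := by
    intro i
    rw [← Cardinal.mk_le_aleph0_iff]
    have h := mk_Iic_lt i (by simp) (by simp)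
    rw [mk_ord_toType] at h
    rwa [← Order.lt_succ_iff, succ_aleph0]
  have hU : (⋃ i, K (e i)) = ⋃ i, K i := e.surjective.iUnion_comp K
  obtain ⟨B, hB⟩ := partition_aux (K := fun i => K (e i)) hcnt (fun i => hK _) (fun i => hne _)
    (fun i j hij => hdis (e.injective.ne hij)) (by rw [hU]; exact hT)
  refine ⟨_, B, ?_, hB⟩
  rw [mk_option, mk_prod]
  have h1 : (ℵ₁ : Cardinal.{0}) * 2 = ℵ₁ := mul_eq_left (aleph0_le_aleph 1)
    ((natCast_lt_aleph0 (n := 2)).le.trans (aleph0_le_aleph 1)) two_ne_zero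
  have h2 : (ℵ₁ : Cardinal.{0}) + 1 = ℵ₁ := add_one_eq (aleph0_le_aleph 1)
  simp [h1, h2]

end Pool.Agent.E8helper8.SR
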