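import Pool.Agent.E8helper8.SR.Alg

/-!
# The partition of the positive reals by the sign of the leading partial derivative
-/

set_option autoImplicit false

open MvPolynomial Set

namespace Pool.Agent.E8helper8.SR

variable {T : Set ℝ} {ι : Type} [LinearOrder ι]

/-- `t` is the leading element of `x`: in the largest block, and the least real number there. -/
def Lead (D : T → Derivation ℚ ℝ ℝ) (blk : T → ι) (x : ℝ) (t : T) : Prop :=
  D t x ≠ 0 ∧ ∀ s, D s x ≠ 0 → blk s < blk t ∨ (blk s = blk t ∧ t ≤ s)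

/-- The positive reals with leading element in the block `ξ` and sign `ε`. -/
def Cls (D : T → Derivation ℚ ℝ ℝ) (blk : T → ι) (ξ : ι) (ε : ℝ) : Set ℝ :=
  {x | 0 < x ∧ ∃ t : T, blk t = ξ ∧ Lead D blk x t ∧ 0 < ε * D t x}

/-- The positive reals all of whose partial derivatives vanish. -/
def Cls0 (D : T → Derivation ℚ ℝ ℝ) : Set ℝ := {x | 0 < x ∧ ∀ t, D t x = 0}

theorem lead_unique {D : T → Derivation ℚ ℝ ℝ} {blk : T → ι} {x : ℝ} {s t : T}
    (hs : Lead D blk x s) (ht : Lead D blk x t) : s = t := by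
  rcases hs.2 t ht.1 with h | ⟨h1, h2⟩
  · rcases ht.2 s hs.1 with h' | ⟨h3, h4⟩
    · exact absurd (h.trans h') (lt_irrefl _)
    · exact absurd (h3 ▸ h) (lt_irrefl _)
  · rcases ht.2 s hs.1 with h' | ⟨h3, h4⟩
    · exact absurd (h1 ▸ h') (lt_irrefl _)
    · exact le_antisymm h2 h4

theorem exists_lead {D : T → Derivation ℚ ℝ ℝ} {blk : T → ι} {x : ℝ}
    (hfin : {t | D t x ≠ 0}.Finite) (hne : ∃ t, D t x ≠ 0) : ∃ t, Lead D blk x t := by
  classical
  obtain ⟨t0, ht0⟩ := hne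
  obtain ⟨t1, ht1, hmax⟩ := hfin.toFinset.exists_max_image blk ⟨t0, by simpa using ht0⟩
  obtain ⟨t2, ht2, hmin⟩ := (hfin.toFinset.filter (fun t => blk t = blk t1)).exists_min_image id
    ⟨t1, by simpa using ht1⟩
  simp only [Finset.mem_filter, Set.Finite.mem_toFinset, Set.mem_ofPred_eq] at ht2 hmin hmax
  refine ⟨t2, ht2.1, fun s hs => ?_⟩
  rcases (hmax s hs).lt_or_eq with h | h
  · left
    rw [ht2.2]
    exact h
  · right
    exact ⟨h.trans ht2.2.symm, hmin s ⟨hs, h⟩⟩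

/-- the common argument for sums and products -/
theorem lead_aux {D : T → Derivation ℚ ℝ ℝ} {blk : T → ι} {ξ : ι} {ε x y z : ℝ} {s t : T}
    {a b : ℝ} (ha : 0 < a) (hb : 0 < b) (hz : ∀ r, D r z = a * D r x + b * D r y)
    (hs : blk s = ξ) (hsx : Lead D blk x s) (hsp : 0 < ε * D s x)
    (ht : blk t = ξ) (hty : Lead D blk y t) (htp : 0 < ε * D t y) (hst : s ≤ t) :
    ∃ r : T, blk r = ξ ∧ Lead D blk z r ∧ 0 < ε * D r z := by
  have h1 : 0 ≤ ε * D s y := by
    by_cases h : D s y = 0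
    · rw [h, mul_zero]
    · rcases hty.2 s h with h2 | ⟨_, h3⟩
      · exact absurd h2 (by rw [hs, ht]; exact lt_irrefl _)
      · rw [le_antisymm hst h3]
        exact htp.le
  have h2 : 0 < ε * D s z := by
    rw [hz]
    have : ε * (a * D s x + b * D s y) = a * (ε * D s x) + b * (ε * D s y) := by ring
    rw [this]
    have := mul_pos ha hsp
    have := mul_nonneg hb.le h1
    linarith
  refine ⟨s, hs, ⟨?_, fun r hr => ?_⟩, h2⟩
  · intro h
    rw [h, mul_zero] at h2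
    exact lt_irrefl _ h2
  · rw [hz] at hr
    by_cases hx : D r x = 0
    · have hy : D r y ≠ 0 := by
        intro hy
        rw [hx, hy] at hr
        simp at hr
      rcases hty.2 r hy with h3 | ⟨h3, h4⟩
      · left
        rw [hs, ← ht]
        exact h3
      · right
        exact ⟨h3.trans (ht.trans hs.symm), hst.trans h4⟩
    · exact hsx.2 r hx

theorem cls_add {D : T → Derivation ℚ ℝ ℝ} {blk : T → ι} {ξ : ι} {ε x y : ℝ}
    (hx : x ∈ Cls D blk ξ ε) (hy : y ∈ Cls D blk ξ ε) : x + y ∈ Cls D blk ξ ε := by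
  obtain ⟨hx0, s, hs, hsx, hsp⟩ := hx
  obtain ⟨hy0, t, ht, hty, htp⟩ := hy
  refine ⟨add_pos hx0 hy0, ?_⟩
  rcases le_total s t with h | h
  · exact lead_aux one_pos one_pos (fun r => by rw [map_add]; ring) hs hsx hsp ht hty htp h
  · exact lead_aux one_pos one_pos (fun r => by rw [map_add]; ring) ht hty htp hs hsx hsp h

theorem cls_mul {D : T → Derivation ℚ ℝ ℝ} {blk : T → ι} {ξ : ι} {ε x y : ℝ}
    (hx : x ∈ Cls D blk ξ ε) (hy : y ∈ Cls D blk ξ ε) : x * y ∈ Cls D blk ξ ε := by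
  obtain ⟨hx0, s, hs, hsx, hsp⟩ := hx
  obtain ⟨hy0, t, ht, hty, htp⟩ := hy
  refine ⟨mul_pos hx0 hy0, ?_⟩
  rcases le_total s t with h | h
  · exact lead_aux hy0 hx0 (fun r => by rw [(D r).leibniz, smul_eq_mul, smul_eq_mul]; ring)
      hs hsx hsp ht hty htp h
  · exact lead_aux hx0 hy0 (fun r => by rw [(D r).leibniz, smul_eq_mul, smul_eq_mul])
      ht hty htp hs hsx hsp h

theorem cls0_add {D : T → Derivation ℚ ℝ ℝ} {x y : ℝ} (hx : x ∈ Cls0 D) (hy : y ∈ Cls0 D) :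
    x + y ∈ Cls0 D :=
  ⟨add_pos hx.1 hy.1, fun t => by rw [map_add, hx.2, hy.2, add_zero]⟩

theorem cls0_mul {D : T → Derivation ℚ ℝ ℝ} {x y : ℝ} (hx : x ∈ Cls0 D) (hy : y ∈ Cls0 D) :
    x * y ∈ Cls0 D :=
  ⟨mul_pos hx.1 hy.1, fun t => by rw [(D t).leibniz, hx.2, hy.2]; simp⟩

end Pool.Agent.E8helper8.SR
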